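import Pool.Agent.Q133.OmG

/-!
# Functions of `Ω` at `k` points of a progression, for every `k`

The exact values `Ω(n), Ω(n + d), ..., Ω(n + (k - 1) d)`, for every `k` and `d`: nontrivial bounds, uniform in `k`, for
the averages of the products `B(Ω(n)) B(Ω(n + d)) ... B(Ω(n + (k - 1) d))`, for the law of the sums
`φ(Ω(n)) + ... + φ(Ω(n + (k - 1) d))` in a finite abelian group, and for three points and a set of values.

From the starting files: the asymptotic independence of `Ω(n + a)` and `Ω(n + c)` at almost all scales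
(`Pool.Agent.Y842.QY`).
-/

set_option autoImplicit false

namespace Pool.Agent.Results.MP_e0aac0_nt.EveryLength

open Finset
open ArithmeticFunction (cardFactors)

open Classical in
/-- `E` has logarithmic density zero. -/
def LogDensityZero (E : Set ℕ) : Prop := Filter.Tendsto
  (fun X : ℕ => (∑ n ∈ Icc 1 X, if n ∈ E then (1 : ℝ) / n else 0) / Real.log X) Filter.atTop (nhds 0)

/-- `e(x) = exp(2 π i x)`. -/
noncomputable def e (x : ℝ) : ℂ := Complex.exp (2 * Real.pi * x * Complex.I)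

/-- The average of `F n` over `1 ≤ n ≤ N`. -/
noncomputable def avg (N : ℕ) (F : ℕ → ℂ) : ℂ := (∑ n ∈ Icc 1 N, F n) / N

/-- The average `m_N` of `B (Ω n)` over `1 ≤ n ≤ N`. -/
noncomputable def mean (B : ℕ → ℂ) (N : ℕ) : ℂ := avg N (fun n => B (cardFactors n))

/-- The product `B(Ω(n)) B(Ω(n + d)) ... B(Ω(n + (k - 1) d))`. -/
noncomputable def prodB (B : ℕ → ℂ) (d k n : ℕ) : ℂ := ∏ i ∈ range k, B (cardFactors (n + d * i))

open Classical in
/-- The proportion of the `n` with `1 ≤ n ≤ N` that have the property `F`. -/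
noncomputable def dens (N : ℕ) (F : ℕ → Prop) : ℝ := (((Icc 1 N).filter F).card : ℝ) / N

/-- At almost all scales: there is one set `E` of logarithmic density zero such that for all `k`, `d ≥ 1` and
`ε > 0` the statement `A k d ε N` holds for all large `N ∉ E`. -/
def AlmostAllScales (A : ℕ → ℕ → ℝ → ℕ → Prop) : Prop :=
  ∃ E : Set ℕ, LogDensityZero E ∧ ∀ k d : ℕ, 1 ≤ k → 1 ≤ d → ∀ ε : ℝ, 0 < ε → ∃ N₀ : ℕ, ∀ N : ℕ, N₀ ≤ N → N ∉ E →
    A k d ε N

lemma avg_norm {N : ℕ} (hN : 1 ≤ N) (F : ℕ → ℂ) (R : ℝ) (h : ‖∑ n ∈ Icc 1 N, F n‖ ^ 2 ≤ R * (N : ℝ) ^ 2) :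
    ‖avg N F‖ ^ 2 ≤ R := by
  have hN0 : (0 : ℝ) < N := by exact_mod_cast hN
  unfold avg
  rw [norm_div, Complex.norm_natCast, div_pow, div_le_iff₀ (by positivity)]
  exact h

lemma avg_sq {N : ℕ} (F : ℕ → ℂ) : ‖avg N F‖ ^ 2 = ‖∑ n ∈ Icc 1 N, F n‖ ^ 2 / (N : ℝ) ^ 2 := by
  unfold avg
  rw [norm_div, Complex.norm_natCast, div_pow]

/-- 1. For every function `B` with `|B| = 1`, with the mean `m_N` of `B(Ω(n))`, at almost all scales:
`|avg_{n ≤ N} e(α n) B(Ω(n)) ... B(Ω(n + (k - 1) d))| ^ 2 ≤ (1 + |m_N| ^ 2 cos (2 π α d)) / 2 + ε` for all real `α`;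
and for all weights `g` bounded by one the squares of the absolute values of the averages of `g(n)` times the products
of length `k`, `k + 1`, `k + 2` at `n` and of length `k` at `n + d` have the sum at most `1 + 3 |m_N| + ε`.
2. For every function `B` with `|B| ≤ 1`, at almost all scales, for every weight `g` bounded by one (for instance a
function of `Ω(n), ..., Ω(n + r)`): `∑_{h < k} |avg_{n ≤ N} g(n) (B(Ω(n + h)) - m_N)| ^ 2 ≤ 1 + ε`.
3. For every function `φ` to a finite abelian group, at almost all scales: the sum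
`φ(Ω(n)) + φ(Ω(n + d)) + ... + φ(Ω(n + (k - 1) d))` takes every value with frequency at most `(1 + κ_N) / 2 + ε`, where
`κ_N` is the sum of the squares of the frequencies of the values of `φ(Ω(n))`.
4. For every set `S` of integers, with the frequency `p` of `Ω(n) ∈ S`, at almost all scales: the frequency of
`Ω(n), Ω(n + d), Ω(n + 2 d) ∈ S` differs from `p ^ 3` by at most `(p ^ 2 + (1 - p) ^ 2 + |1 - 2 p| ^ 3) / 8 + ε`. -/
theorem result :
    (∀ B : ℕ → ℂ, (∀ l, ‖B l‖ = 1) → AlmostAllScales fun k d ε N =>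
      (∀ α : ℝ, ‖avg N (fun n => e (α * n) * prodB B d k n)‖ ^ 2 ≤
        (1 + ‖mean B N‖ ^ 2 * Real.cos (2 * Real.pi * (α * d))) / 2 + ε) ∧
      ∀ g : ℕ → ℂ, (∀ n, ‖g n‖ ≤ 1) →
        ‖avg N (fun n => g n * prodB B d k n)‖ ^ 2 + ‖avg N (fun n => g n * prodB B d (k + 1) n)‖ ^ 2 +
        ‖avg N (fun n => g n * prodB B d (k + 2) n)‖ ^ 2 + ‖avg N (fun n => g n * prodB B d k (n + d))‖ ^ 2 ≤
          1 + 3 * ‖mean B N‖ + ε) ∧
    (∀ B : ℕ → ℂ, (∀ l, ‖B l‖ ≤ 1) → AlmostAllScales fun k _ ε N =>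
      ∀ g : ℕ → ℂ, (∀ n, ‖g n‖ ≤ 1) →
        ∑ h ∈ range k, ‖avg N (fun n => g n * (B (cardFactors (n + h)) - mean B N))‖ ^ 2 ≤ 1 + ε) ∧
    (∀ (G : Type) [AddCommGroup G] [Fintype G] (φ : ℕ → G), AlmostAllScales fun k d ε N =>
      ∀ w : G, dens N (fun n => ∑ i ∈ range k, φ (cardFactors (n + d * i)) = w) ≤
        (1 + ∑ g, dens N (fun n => φ (cardFactors n) = g) ^ 2) / 2 + ε) ∧
    (∀ S : Set ℕ, AlmostAllScales fun _ d ε N => ∀ p : ℝ, p = dens N (fun n => cardFactors n ∈ S) →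
      |dens N (fun n => cardFactors n ∈ S ∧ cardFactors (n + d) ∈ S ∧ cardFactors (n + 2 * d) ∈ S) - p ^ 3| ≤
        (p ^ 2 + (1 - p) ^ 2 + |1 - 2 * p| ^ 3) / 8 + ε) := by
  classical
  refine ⟨fun B hB => ?_, fun B hB => ?_, fun G _ _ φ => ?_, fun S => ?_⟩
  · obtain ⟨E, hE, h⟩ := Pool.Agent.Q133.OK.pair_fam (ι := Bool)
      (fun b => if b then Pool.Agent.Q133.OK.cj B else B) (by
        intro b l
        cases b
        · exact (hB l).le
        · show ‖starRingEnd ℂ (B l)‖ ≤ 1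
          rw [Complex.norm_conj]
          exact (hB l).le)
    refine ⟨E, hE, fun k d hk hd ε hε => ?_⟩
    obtain ⟨N₁, h1⟩ := Pool.Agent.Q133.OK.part1 hB (h true false) k d hk hd ε hε
    obtain ⟨N₂, h2⟩ := Pool.Agent.Q133.OK.part2 hB (h true false) (h false false) k d hk hd ε hε
    refine ⟨N₁ + N₂ + 1, fun N hN hNE => ⟨fun α => ?_, fun g hg => ?_⟩⟩
    · exact avg_norm (by omega) _ _ (h1 N (by omega) hNE α)
    · have h3 := h2 N (by omega) hNE g hg
      have hN0 : (0 : ℝ) < N := by exact_mod_cast (by omega : 0 < N)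
      rw [avg_sq, avg_sq, avg_sq, avg_sq, ← add_div, ← add_div, ← add_div, div_le_iff₀ (by positivity)]
      exact h3
  · obtain ⟨E, hE, h⟩ := Pool.Agent.Q133.OK.pair_fam (ι := Bool)
      (fun b => if b then Pool.Agent.Q133.OK.cj B else B) (by
        intro b l
        cases b
        · exact hB l
        · show ‖starRingEnd ℂ (B l)‖ ≤ 1
          rw [Complex.norm_conj]
          exact hB l)
    refine ⟨E, hE, fun k d hk hd ε hε => ?_⟩
    obtain ⟨N₁, h1⟩ := Pool.Agent.Q133.OK.part3 hB (h true false) k ε hε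
    refine ⟨N₁ + 1, fun N hN hNE g hg => ?_⟩
    have h3 := h1 N (by omega) hNE g hg
    have hN0 : (0 : ℝ) < N := by exact_mod_cast (by omega : 0 < N)
    rw [sum_congr rfl fun h _ => avg_sq (fun n => g n * (B (cardFactors (n + h)) - mean B N)), ← sum_div,
      div_le_iff₀ (by positivity)]
    exact h3
  · obtain ⟨E, hE, h⟩ := Pool.Agent.Q133.OK.pair_E' φ
    refine ⟨E, hE, fun k d hk hd ε hε => ?_⟩
    obtain ⟨N₁, h1⟩ := Pool.Agent.Q133.OK.part5 φ h k d hk hd ε hε
    refine ⟨N₁ + 1, fun N hN hNE w => ?_⟩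
    have h3 := h1 N (by omega) hNE w
    have hN0 : (0 : ℝ) < N := by exact_mod_cast (by omega : 0 < N)
    unfold dens
    rw [div_le_iff₀ hN0]
    exact h3
  · obtain ⟨E, hE, h⟩ := Pool.Agent.Q133.OK.pair_E' (Pool.Agent.Q133.OK.chi S)
    refine ⟨E, hE, fun k d hk hd ε hε => ?_⟩
    obtain ⟨N₁, h1⟩ := Pool.Agent.Q133.OK.part6 S h d hd ε hε
    refine ⟨N₁ + 1, fun N hN hNE p hp => ?_⟩
    have h3 := h1 N (by omega) hNE
    have hm : ∀ n, (Pool.Agent.Q133.OK.chi S n = 1) ↔ n ∈ S := by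
      intro n
      unfold Pool.Agent.Q133.OK.chi
      by_cases h : n ∈ S
      · simp [h]
      · simp only [h, if_false, iff_false]
        decide
    have e1 : Pool.Agent.Q133.OK.pg (Pool.Agent.Q133.OK.chi S) N 1 = p := by
      rw [hp]
      unfold Pool.Agent.Q133.OK.pg dens
      simp only [hm]
    rw [e1] at h3
    have e2 : dens N (fun n => cardFactors n ∈ S ∧ cardFactors (n + d) ∈ S ∧ cardFactors (n + 2 * d) ∈ S) =
        (((Icc 1 N).filter (fun n => Pool.Agent.Q133.OK.chi S (cardFactors n) = 1 ∧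
          Pool.Agent.Q133.OK.chi S (cardFactors (n + d)) = 1 ∧
          Pool.Agent.Q133.OK.chi S (cardFactors (n + 2 * d)) = 1)).card : ℝ) / N := by
      unfold dens
      refine congrArg (fun t : Finset ℕ => ((t.card : ℕ) : ℝ) / N) ?_
      ext n
      simp only [mem_filter, hm]
    rw [e2]
    exact h3

end Pool.Agent.Results.MP_e0aac0_nt.EveryLength
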