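import Pool.Agent.Q270.EC.Om2

/-!
# Exact information on `Ω` at any number of places against coarse or truncated information at any number
of other places

`LogProp X B` is the proportion, with the weights `1/N`, of the scales `N ≤ X` with the property `B`. Let
`a_1, ..., a_m` be distinct, `b_1, ..., b_k` different from all the `a_l`, `k, m ≥ 1`, `ε > 0`.

1. There are `δ > 0` and `X₀` such that for `X ≥ X₀` and ALL functions `B_1, ..., B_k` bounded by one (even with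
   arbitrary multiplicative functions `g_j` of `n + b_j` as factors), all scales `N ≤ X` but a logarithmic
   proportion `ε` satisfy: for ALL `Γ : ℕ^m → ℂ` bounded by one with `|Γ(u) - Γ(v)| ≤ δ ∑ |u_l - v_l|`, the mean over
   `n ≤ N` of `Γ(Ω(n+a_1), ..., Ω(n+a_m)) ∏_j g_j(n+b_j) B_j(Ω(n+b_j))` is within `ε` of the mean of
   `∏_j g_j(n+b_j) B_j(Ω(n+b_j))` times the mean of `Γ(Ω(z_1), ..., Ω(z_m))` over `z ∈ [N]^m`.
2. Residues in total variation: for every modulus `q` there are `δ, X₀` such that for `X ≥ X₀` all `N ≤ X` but a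
   logarithmic proportion `ε` satisfy: for ALL functions `Γ` of the residues `Ω(n + b_j) mod q`, `j ≤ k`, and of the
   `Ω(n + a_l)`, `δ`-Lipschitz in the latter, the latter can be replaced by the `Ω(z_l)` of independent `z_l ≤ N`.
3. Truncated: there are `w₀, A` such that for `w ≥ w₀` and large `X` all `N ≤ X` but a logarithmic proportion `ε`
   satisfy: for ALL `y ≤ N^{1/A}` the vectors `(Ω(n + b_j) mod q)_j` and `(Ω_{w,y}(n + a_l))_l` are independent up to `ε`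
   in total variation (tested against ALL functions of the pair bounded by one); `Ω_{w,y}(n)` is the number of
   prime factors `w < p ≤ y` of `n` with multiplicity.
-/

set_option autoImplicit false

namespace Pool.Agent.Results.MP_e0aac0_nt.ManyExactPlaces

open Finset Pool.Agent.Q270.EA Pool.Agent.Q270.EB Pool.Agent.Q270.EC
open ArithmeticFunction (cardFactors)

open Classical in
/-- the proportion, with the weights `1 / N`, of the scales `N ≤ X` with the property `B` -/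
noncomputable def LogProp (X : ℕ) (B : ℕ → Prop) : ℝ :=
  (∑ N ∈ Icc 1 X, if B N then 1 / (N : ℝ) else 0) / ∑ N ∈ Icc 1 X, 1 / (N : ℝ)

/-- the mean over `1 ≤ n ≤ N` -/
noncomputable def mean (N : ℕ) (φ : ℕ → ℂ) : ℂ := (1 / (N : ℂ)) * ∑ n ∈ Icc 1 N, φ n

/-- the mean over `z ∈ [N]^m` -/
noncomputable def boxMean (m N : ℕ) (φ : (Fin m → ℕ) → ℂ) : ℂ :=
  (1 / (N : ℂ) ^ m) * ∑ z ∈ Fintype.piFinset (fun _ : Fin m => Icc 1 N), φ z

/-- slowly varying functions -/
def Slow {m : ℕ} (δ : ℝ) (Γ : (Fin m → ℕ) → ℂ) : Prop :=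
  ∀ u v : Fin m → ℕ, ‖Γ u - Γ v‖ ≤ δ * ∑ l, |(u l : ℝ) - v l|

/-- the number of prime factors `w < p ≤ y` of `n`, with multiplicity -/
noncomputable def Omega (w y n : ℕ) : ℕ := ∑ p ∈ (Ioc w y).filter Nat.Prime, n.factorization p

/-- the residues of `Ω(n + b j)` -/
def res {k : ℕ} (q : ℕ) (b : Fin k → ℕ) (n : ℕ) : Fin k → ℕ := fun j => cardFactors (n + b j) % q

theorem result (m k : ℕ) (a : Fin m → ℕ) (b : Fin k → ℕ) (hm : 1 ≤ m) (hk : 1 ≤ k)
    (ha : Function.Injective a) (hab : ∀ l j, a l ≠ b j) (ε : ℝ) (hε : 0 < ε) :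
    -- 1. arbitrary functions at the places `b j`
    (∃ (δ : ℝ) (X₀ : ℕ), 0 < δ ∧ ∀ X : ℕ, X₀ ≤ X → ∀ g B : Fin k → ℕ → ℂ, (∀ j, BM (g j)) →
      (∀ j l, ‖B j l‖ ≤ 1) → LogProp X (fun N => ¬ ∀ Γ : (Fin m → ℕ) → ℂ, (∀ u, ‖Γ u‖ ≤ 1) → Slow δ Γ →
        ‖mean N (fun n => Γ (fun l => cardFactors (n + a l)) *
            ∏ j, (g j (n + b j) * B j (cardFactors (n + b j)))) -
          boxMean m N (fun z => Γ (fun l => cardFactors (z l))) *
            mean N (fun n => ∏ j, (g j (n + b j) * B j (cardFactors (n + b j))))‖ ≤ ε) ≤ ε) ∧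
    -- 2. residues in total variation
    (∀ q : ℕ, 1 ≤ q → ∃ (δ : ℝ) (X₀ : ℕ), 0 < δ ∧ ∀ X : ℕ, X₀ ≤ X →
      LogProp X (fun N => ¬ ∀ Γ : (Fin k → ℕ) → (Fin m → ℕ) → ℂ, (∀ ρ u, ‖Γ ρ u‖ ≤ 1) →
        (∀ ρ, Slow δ (Γ ρ)) →
        ‖mean N (fun n => Γ (res q b n) (fun l => cardFactors (n + a l))) -
          mean N (fun n => boxMean m N (fun z => Γ (res q b n) (fun l => cardFactors (z l))))‖ ≤ ε) ≤ ε) ∧
    -- 3. truncated functions
    (∀ q : ℕ, 1 ≤ q → ∃ w₀ A : ℕ, 1 ≤ A ∧ ∀ w : ℕ, w₀ ≤ w → ∃ X₀ : ℕ, ∀ X : ℕ, X₀ ≤ X →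
      LogProp X (fun N => ¬ ∀ y : ℕ, y ^ A ≤ N → ∀ H : (Fin k → ℕ) → (Fin m → ℕ) → ℂ,
        (∀ ρ d, ‖H ρ d‖ ≤ 1) →
        ‖mean N (fun n => H (res q b n) (fun l => Omega w y (n + a l))) -
          mean N (fun n => mean N (fun n' => H (res q b n) (fun l => Omega w y (n' + a l))))‖ ≤ ε)
        ≤ ε) := by
  refine ⟨?_, ?_, ?_⟩
  · obtain ⟨δ, w, X₀, hδ, h⟩ := mxom m k a b hm hk ha hab ε hε
    refine ⟨δ, X₀, hδ, fun X hX g B hg hB => ?_⟩
    exact h X hX g (fun j n => B j (cardFactors n)) hg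
      (fun j => Pool.Agent.Q239.EB.QM_Om w (B j) (hB j))
  · intro q hq
    exact mxres m k q a b hm hk hq ha hab ε hε
  · intro q hq
    obtain ⟨w₀, A, hA, h⟩ := mxrest m k q a b hm hk hq ha hab ε hε
    refine ⟨w₀, A, hA, fun w hw => ?_⟩
    obtain ⟨X₀, h⟩ := h w hw
    refine ⟨X₀, fun X hX => le_trans (LM_mono X fun N _ hN => ?_) (h X hX)⟩
    intro hcon
    apply hN
    intro y hy H hH
    have h1 := hcon y hy (fun ρ d => H ρ (fun l => cardFactors (d l))) (fun ρ d => hH ρ _)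
    have h2 : ∀ n, cardFactors (Pool.Agent.W208.TL.sm w y n) = Omega w y n :=
      fun n => Pool.Agent.Q239.EB.Om_sm w y n
    simp only [h2] at h1
    exact h1

end Pool.Agent.Results.MP_e0aac0_nt.ManyExactPlaces
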