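import Pool.Agent.Q163.AD.Final
import Pool.Agent.Q163.RX.Crit

/-!
# Independence in total variation for completely additive functions with random coins at few primes
-/

set_option autoImplicit false

namespace Pool.Agent.Results.MP_e0aac0_nt.RandomAtFewPrimes

open Finset MeasureTheory Filter Topology Pool.Agent.Q163.RX

/-- Q1 for `f`, for all families of linear forms: the joint law of `f (α i * n + β i)`, `n ≤ N`, is
in total variation close to the product of the laws of `f n`, `n ≤ N` -/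
def Independent (f : ℕ → ℤ) : Prop := ∀ (k : ℕ) (α β : Fin k → ℕ), 1 ≤ k → (∀ i, 1 ≤ α i) →
  (∀ i j, i ≠ j → α i * β j ≠ α j * β i) →
  Tendsto (fun N : ℕ => ∑' ℓ : Fin k → ℤ,
    |(((Finset.Ioc 0 N).filter fun n => ∀ i, f (α i * n + β i) = ℓ i).card : ℝ) / N -
      ∏ i, (((Finset.Ioc 0 N).filter fun n => f n = ℓ i).card : ℝ) / N|) atTop (𝓝 0)

/-- the completely additive function with the values `v p` at the primes -/
def add (v : ℕ → ℤ) (n : ℕ) : ℤ := ∑ p ∈ n.primeFactors, (n.factorization p : ℤ) * v p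

open Classical in
/-- the number of prime factors in `S`, with multiplicity -/
noncomputable def Om (S : Set ℕ) (n : ℕ) : ℤ := add (fun p => if p ∈ S then 1 else 0) n

open Classical in
/-- the sum of `1 / p` over the primes `p ∈ P` with `log N < p ≤ N` tends to infinity -/
def Thick (P : Set ℕ) : Prop := Tendsto (fun N : ℕ =>
  ∑ p ∈ (Finset.Ioc ⌊Real.log N⌋₊ N).filter (fun p => p.Prime ∧ p ∈ P), (1 : ℝ) / p) atTop atTop

lemma thick_univ : Thick Set.univ := by
  classical
  obtain ⟨C, hC⟩ := mertens_all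
  have hlog : Tendsto (fun N : ℕ => Real.log (N : ℝ)) atTop atTop :=
    Real.tendsto_log_atTop.comp tendsto_natCast_atTop_atTop
  refine mass_crit Set.univ 1 C one_pos (fun y x hy hyx => ?_) (fun N => ⌊Real.log N⌋₊)
    ((tendsto_nat_floor_atTop.comp hlog).eventually_ge_atTop 3) ?_
  · rw [one_mul]
    refine (hC y x hy hyx).trans (le_of_eq ?_)
    congr 1
    ext p
    simp
  · have h1 : Tendsto (fun x : ℝ => Real.log x / x) atTop (𝓝 0) :=
      Real.isLittleO_log_id_atTop.tendsto_div_nhds_zero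
    refine squeeze_zero' ?_ ?_ (h1.comp hlog)
    · filter_upwards [hlog.eventually_ge_atTop 1] with N hN
      exact div_nonneg (Real.log_natCast_nonneg _) (by linarith)
    · filter_upwards [hlog.eventually_ge_atTop 1] with N hN
      simp only [Function.comp]
      refine div_le_div_of_nonneg_right (Real.log_le_log ?_ (Nat.floor_le (by linarith))) (by linarith)
      exact_mod_cast Nat.floor_pos.2 hN

open Classical in
theorem main (P : Set ℕ) (hP : Thick P) (K : ℕ) (h : ℕ → ℤ) (hK : ∀ p, p.Prime → |h p| ≤ K) :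
    ∀ᵐ ω ∂cm, Independent (add fun p => h p + if p ∈ P ∧ ω p = true then 1 else 0) := by
  have hK' : ∀ p, p.Prime → |(h p : ℝ)| ≤ (K : ℕ) := by
    intro p hp
    have h1 := hK p hp
    exact_mod_cast h1
  have h1 : ∀ᵐ ω ∂cm, ∀ (k : ℕ) (α β : Fin k → ℕ), 1 ≤ k → (∀ i, 1 ≤ α i) →
      (∀ i j, i ≠ j → α i * β j ≠ α j * β i) → Tendsto (Pool.Agent.Q163.AD.Dis
        (Pool.Agent.Q163.AD.rf h P ω) α β) atTop (𝓝 0) := by
    rw [ae_all_iff]
    intro k
    rw [ae_all_iff]
    intro α
    rw [ae_all_iff]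
    intro β
    by_cases hk : 1 ≤ k ∧ (∀ i, 1 ≤ α i) ∧ (∀ i j, i ≠ j → α i * β j ≠ α j * β i)
    · filter_upwards [Pool.Agent.Q163.AD.forms_one hk.1 α β hk.2.1 hk.2.2 hK' P hP] with ω hω
      intro _ _ _
      exact hω
    · filter_upwards with ω
      intro h2 h3 h4
      exact absurd ⟨h2, h3, h4⟩ hk
  filter_upwards [h1] with ω hω
  intro k α β hk hα hαβ
  exact hω k α β hk hα hαβ

open Classical in
theorem result :
    (∀ P : Set ℕ, Thick P → ∀ (K : ℕ) (h : ℕ → ℤ), (∀ p, p.Prime → |h p| ≤ K) →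
      ∀ᵐ ω ∂cm, Independent (add fun p => h p + if p ∈ P ∧ ω p = true then 1 else 0)) ∧
    (∀ᵐ ω ∂cm, Independent (Om {p | ω p = true})) ∧
    ∀ P : Set ℕ, Thick P → ∃ D : Set ℕ, D ⊆ P ∧ Independent (Om Dᶜ) := by
  refine ⟨fun P hP K h hK => main P hP K h hK, ?_, fun P hP => ?_⟩
  · filter_upwards [main Set.univ thick_univ 0 (fun _ => 0) (by simp)] with ω hω
    unfold Om
    refine (congrArg Independent (congrArg add ?_)).mpr hω
    funext p
    by_cases hp : ω p = true
    · simp [hp]
    · simp [hp]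
  · have h1 := main P hP 1 (fun p => if p ∈ P then 0 else 1) (by
      intro p _
      split_ifs <;> simp)
    obtain ⟨ω, hω⟩ := h1.exists
    refine ⟨{p | p ∈ P ∧ ω p = false}, fun p hp => hp.1, ?_⟩
    unfold Om
    refine (congrArg Independent (congrArg add ?_)).mpr hω
    funext p
    by_cases hp : p ∈ P
    · cases hb : ω p <;> simp [hp, hb]
    · simp [hp]

end Pool.Agent.Results.MP_e0aac0_nt.RandomAtFewPrimes
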