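import Pool.Agent.Q197.PS.LW

/-! # The joint law of Omega at consecutive integers along random unions of residue classes

For a set `A` of residues modulo `P` let `dist k P A N` be the sum over all `ℓ` of the absolute values of
`(1 / N) #{n ≤ N : n mod P ∈ A, Ω(n + i) = ℓ_i + 1 for all i < k}` minus
`|A| / P` times the product of the densities of `Ω = ℓ_i + 1` up to `N`; for all `n` this is the sum of the
problem. -/

set_option autoImplicit false

open Finset Filter Topology

namespace Pool.Agent.Results.MP_e0aac0_nt.UnionsOfClasses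

/-- The number of the `1 ≤ n ≤ N` with `n mod P ∈ A` and `Ω(n + i) = ℓ_i + 1` for all `i < k`. -/
noncomputable def count (k P : ℕ) (A : Finset ℕ) (N : ℕ) (ℓ : Fin k → ℕ) : ℕ :=
  ((Icc 1 N).filter (fun n => n % P ∈ A ∧
    ∀ i : Fin k, ArithmeticFunction.cardFactors (n + (i : ℕ)) = ℓ i + 1)).card

/-- The density of `Ω = m + 1` up to `N`. -/
noncomputable def dens (N m : ℕ) : ℝ :=
  (1 / (N : ℝ)) * (((Icc 1 N).filter (fun n => ArithmeticFunction.cardFactors n = m + 1)).card : ℝ)

/-- The distance of the joint law along `A` to `|A| / P` times the product law. -/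
noncomputable def dist (k P : ℕ) (A : Finset ℕ) (N : ℕ) : ℝ :=
  ∑' ℓ : Fin k → ℕ, |(1 / (N : ℝ)) * (count k P A N ℓ : ℝ) - (A.card : ℝ) / P * ∏ i : Fin k, dens N (ℓ i)|

/-- The sum of the problem (as in `S18733`). -/
noncomputable def distAll (k N : ℕ) : ℝ :=
  ∑' ℓ : Fin k → ℕ, |(1 / (N : ℝ)) * (((Icc 1 N).filter
    (fun n => ∀ i : Fin k, ArithmeticFunction.cardFactors (n + (i : ℕ)) = ℓ i + 1)).card : ℝ) -
      ∏ i : Fin k, dens N (ℓ i)|

open Classical in
/-- The number of the sets `A` of residues modulo `P` for which the distance tends to zero. -/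
noncomputable def good (k P : ℕ) : ℕ :=
  ((range P).powerset.filter (fun A => Tendsto (dist k P A) atTop (𝓝 0))).card

open Classical in
/-- the colour of `n` -/
noncomputable def col (k n : ℕ) : Option (Fin k → ℕ) :=
  if ∀ i : Fin k, 1 ≤ ArithmeticFunction.cardFactors (n + (i : ℕ)) then
    some (fun i : Fin k => ArithmeticFunction.cardFactors (n + (i : ℕ)) - 1) else none

lemma col_iff (k n : ℕ) (ℓ : Fin k → ℕ) :
    col k n = some ℓ ↔ ∀ i : Fin k, ArithmeticFunction.cardFactors (n + (i : ℕ)) = ℓ i + 1 := by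
  unfold col
  constructor
  · intro h i
    split_ifs at h with h1
    have h2 := Option.some_injective _ h
    have h3 := congrFun h2 i
    have h4 := h1 i
    omega
  · intro h
    rw [if_pos (fun i => by rw [h i]; omega)]
    congr 1
    funext i
    rw [h i]
    omega

/-- the product law -/
noncomputable def prodLaw (k N : ℕ) (ℓ : Fin k → ℕ) : ℝ := ∏ i : Fin k, dens N (ℓ i)

lemma dens_nonneg (N m : ℕ) : 0 ≤ dens N m := by
  unfold dens
  positivity

/-- the values of Omega minus one -/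
noncomputable def vals (N : ℕ) : Finset ℕ := (Icc 1 N).image (fun n => ArithmeticFunction.cardFactors n - 1)

lemma dens_zero {N m : ℕ} (h : m ∉ vals N) : dens N m = 0 := by
  unfold dens
  rw [filter_eq_empty_iff.2, card_empty]
  · simp
  · intro n hn h1
    apply h
    unfold vals
    rw [mem_image]
    exact ⟨n, hn, by omega⟩

lemma dens_sum (N : ℕ) : ∑ m ∈ vals N, dens N m ≤ 1 := by
  unfold dens
  rw [← mul_sum]
  have h1 : ∑ m ∈ vals N, ((Icc 1 N).filter (fun n => ArithmeticFunction.cardFactors n = m + 1)).card ≤ N := by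
    rw [← card_biUnion]
    · have h2 : (vals N).biUnion (fun m => (Icc 1 N).filter
          (fun n => ArithmeticFunction.cardFactors n = m + 1)) ⊆ Icc 1 N := by
        intro n hn
        rw [mem_biUnion] at hn
        obtain ⟨m, _, h3⟩ := hn
        exact (mem_filter.1 h3).1
      have h3 := card_le_card h2
      rwa [Nat.card_Icc, Nat.add_sub_cancel] at h3
    · intro a _ b _ hab
      refine disjoint_left.2 fun n h4 h5 => hab ?_
      rw [mem_filter] at h4 h5
      have := h4.2.symm.trans h5.2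
      omega
  rcases Nat.eq_zero_or_pos N with h0 | h0
  · rw [h0]
    simp
  · have h0r : (0 : ℝ) < N := by exact_mod_cast h0
    rw [one_div, inv_mul_le_iff₀ h0r, mul_one]
    exact_mod_cast h1

lemma law_ok (k : ℕ) : Q197.PS.LawOK (prodLaw k) where
  nonneg := fun N ℓ => prod_nonneg fun i _ => dens_nonneg N (ℓ i)
  fin := fun N => by
    refine (Fintype.piFinset (fun _ : Fin k => vals N)).finite_toSet.subset fun ℓ hℓ => ?_
    rw [mem_coe, Fintype.mem_piFinset]
    intro i
    by_contra hcon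
    exact hℓ (prod_eq_zero (mem_univ i) (dens_zero hcon))
  sum := fun N => by
    have h1 : ∑' ℓ, prodLaw k N ℓ = ∑ ℓ ∈ Fintype.piFinset (fun _ : Fin k => vals N), prodLaw k N ℓ := by
      refine tsum_eq_sum fun ℓ hℓ => ?_
      rw [Fintype.mem_piFinset] at hℓ
      push Not at hℓ
      obtain ⟨i, hi⟩ := hℓ
      exact prod_eq_zero (mem_univ i) (dens_zero hi)
    rw [h1]
    unfold prodLaw
    rw [← prod_univ_sum (t := fun _ : Fin k => vals N) (f := fun _ m => dens N m)]
    exact prod_le_one (fun i _ => sum_nonneg fun m _ => dens_nonneg N m) fun i _ => dens_sum N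

lemma dist_eq (k P : ℕ) (A : Finset ℕ) (N : ℕ) : dist k P A N = Q197.PS.DL (col k) (prodLaw k) P A N := by
  unfold dist Q197.PS.DL
  refine tsum_congr fun ℓ => ?_
  have h1 : count k P A N ℓ = Q197.PS.cntL (col k) P A N ℓ := by
    unfold count Q197.PS.cntL
    congr 1
    ext n
    simp only [mem_filter, col_iff]
  rw [h1, one_div, ← div_eq_inv_mul]
  rfl

lemma distAll_eq (k N : ℕ) : distAll k N = dist k 1 {0} N := by
  unfold distAll dist
  refine tsum_congr fun ℓ => ?_
  have h1 : ((Icc 1 N).filter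
      (fun n => ∀ i : Fin k, ArithmeticFunction.cardFactors (n + (i : ℕ)) = ℓ i + 1)).card =
      count k 1 {0} N ℓ := by
    unfold count
    congr 1
    ext n
    simp only [mem_filter, mem_singleton, Nat.mod_one, true_and]
  rw [h1, card_singleton]
  simp

open Classical in
theorem result :
    (∀ k : ℕ, (∀ q : ℕ, 0 < q → ∀ a < q, Tendsto (dist k q {a}) atTop (𝓝 0)) ↔
      ∀ q : ℕ, 0 < q → ∀ K : ℝ, ∃ P : ℕ, 0 < P ∧ q ∣ P ∧ K * 2 ^ P / √P ≤ good k P) ∧
    (∀ (k : ℕ) (c : ℝ), 0 < c → (∃ᶠ N in atTop, c ≤ distAll k N) → ∀ P : ℕ, 0 < P →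
      (good k P : ℝ) ≤ 81 * (1 + 1 / c) * 2 ^ P / √P) ∧
    (∀ (k : ℕ) (c : ℝ), 0 < c → ∀ q a : ℕ, a < q → (∃ᶠ N in atTop, c ≤ dist k q {a} N) →
      ∀ P : ℕ, 0 < P → q ∣ P → (good k P : ℝ) ≤ 81 * (1 + 1 / c) * 2 ^ P / √P) ∧
    ((∀ (k : ℕ) (K : ℝ), ∃ P : ℕ, 0 < P ∧ K * 2 ^ P / √P ≤ good k P) →
      ∀ k : ℕ, Tendsto (distAll k) atTop (𝓝 0)) := by
  have hD : ∀ (k P : ℕ) (A : Finset ℕ), dist k P A = Q197.PS.DL (col k) (prodLaw k) P A :=
    fun k P A => funext fun N => dist_eq k P A N
  have hg : ∀ k P : ℕ, good k P = Q197.PS.nLaw (col k) (prodLaw k) P := by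
    intro k P
    unfold good Q197.PS.nLaw
    simp only [hD]
  have hA : ∀ k : ℕ, distAll k = Q197.PS.DL (col k) (prodLaw k) 1 {0} := fun k =>
    funext fun N => (distAll_eq k N).trans (dist_eq k 1 {0} N)
  refine ⟨fun k => ?_, fun k c hc hfr P hP => ?_, fun k c hc q a ha hfr P hP hd => ?_, fun h k => ?_⟩
  · simp only [hD, hg]
    exact Q197.PS.law_iff (col k) (law_ok k)
  · rw [hg]
    rw [hA] at hfr
    exact Q197.PS.few_law (col k) (law_ok k) hc one_pos (B := {0}) (by
      intro x hx
      rw [mem_singleton] at hx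
      rw [hx]
      exact mem_range.2 one_pos) hfr hP (one_dvd P)
  · rw [hg]
    rw [hD] at hfr
    exact Q197.PS.few_law (col k) (law_ok k) hc (by omega : 0 < q) (B := {a}) (by
      intro x hx
      rw [mem_singleton] at hx
      rw [hx]
      exact mem_range.2 ha) hfr hP hd
  · rw [hA]
    refine Q197.PS.law_all (col k) (law_ok k) fun K => ?_
    obtain ⟨P, hP, h1⟩ := h k K
    exact ⟨P, hP, by rw [← hg]; exact h1⟩

end Pool.Agent.Results.MP_e0aac0_nt.UnionsOfClasses
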